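import Pool.Agent.N703.PG.Core

/-!
# On-line partial list colouring: the bound `n / ⌈s / t⌉`, the full conjecture for `t ∣ s`
(MP_fae029_co)
-/

set_option autoImplicit false

namespace Pool.Agent.Results.MP_fae029_co.Divisible

open Pool.Agent.N703.PG

/-- If `G` has `n` vertices and is `s`-paintable and `s ≤ t * m`, then Mrs. Correct can force `k`
coloured vertices with `k * m ≥ n` in the game in which every vertex may be presented `t` times.
For `s = t * m` this is the conjectured bound `t * n / s`. -/
theorem result : ∀ (V : Type) [Fintype V] [DecidableEq V] (G : SimpleGraph V) (s t m : ℕ),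
    1 ≤ m → s ≤ t * m → Forces G s (Fintype.card V) →
    ∃ k, Fintype.card V ≤ k * m ∧ Forces G t k :=
  fun _ _ _ _ s t m hm hs h => main s t m hm hs h

end Pool.Agent.Results.MP_fae029_co.Divisible
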